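import Mathlib

open MeasureTheory Filter Topology Set Real
open scoped ContDiff

namespace Pool.Agent.H.MP_4efd05_mp

theorem inv2 {X J : ℝ × ℝ → ℝ} (hX : ContDiff ℝ ∞ X) (hJ : ∀ m t, HasDerivAt (fun y => X (y, t)) (J (m, t)) m)
    (h0 : ∀ z, 0 < J z) (hs : ∀ t x, ∃ m, X (m, t) = x) :
    ∃ μ : ℝ × ℝ → ℝ, ContDiff ℝ ∞ μ ∧ (∀ x t, X (μ (x, t), t) = x) ∧ ∀ m t, μ (X (m, t), t) = m := by
  have mono : ∀ t, StrictMono fun y => X (y, t) := fun t =>
    strictMono_of_deriv_pos fun m => by rw [(hJ m t).deriv]; exact h0 _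
  let Φ : ℝ × ℝ → ℝ × ℝ := fun z => (X z, z.2)
  have hΦ : ContDiff ℝ ∞ Φ := hX.prodMk contDiff_snd
  have bij : Function.Bijective Φ := by
    refine ⟨fun ⟨a, s⟩ ⟨b, t⟩ e => ?_, fun ⟨x, t⟩ => ?_⟩
    · simp only [Φ, Prod.mk.injEq] at e
      obtain ⟨e1, rfl⟩ := e
      rw [(mono s).injective e1]
    · obtain ⟨m, e⟩ := hs t x
      exact ⟨(m, t), by simp [Φ, e]⟩
  have dX : ∀ z, HasFDerivAt X (fderiv ℝ X z) z := fun z => (hX.differentiable (by simp) z).hasFDerivAt
  have inj : ∀ z : ℝ × ℝ, Function.Injective ((fderiv ℝ X z).prod (ContinuousLinearMap.snd ℝ ℝ ℝ)).toLinearMap := by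
    rintro ⟨m, t⟩
    rw [injective_iff_map_eq_zero]
    rintro ⟨u, v⟩ e
    simp only [ContinuousLinearMap.coe_coe, ContinuousLinearMap.prod_apply, ContinuousLinearMap.coe_snd', Prod.mk_eq_zero] at e
    obtain ⟨e1, rfl⟩ := e
    have a : HasDerivAt (fun y => X (y, t)) (fderiv ℝ X (m, t) (1, 0)) m :=
      (dX (m, t)).comp_hasDerivAt m ((hasDerivAt_id m).prodMk (hasDerivAt_const m t))
    have b : fderiv ℝ X (m, t) (u, 0) = u * J (m, t) := by
      rw [← a.unique (hJ m t), ← smul_eq_mul, ← map_smul]; simp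
    rw [b] at e1
    simp [(mul_eq_zero.1 e1).resolve_right (h0 _).ne']
  let D : ℝ × ℝ → (ℝ × ℝ) ≃L[ℝ] (ℝ × ℝ) := fun z => (LinearEquiv.ofInjectiveEndo _ (inj z)).toContinuousLinearEquiv
  have hD : ∀ z, HasStrictFDerivAt Φ (D z : (ℝ × ℝ) →L[ℝ] (ℝ × ℝ)) z := fun z => by
    have a := (hΦ.contDiffAt (x := z)).hasStrictFDerivAt (by simp)
    have b : HasFDerivAt Φ _ z := (dX z).prodMk hasFDerivAt_snd
    rw [b.fderiv] at a
    have c : (D z : (ℝ × ℝ) →L[ℝ] (ℝ × ℝ)) = (fderiv ℝ X z).prod (ContinuousLinearMap.snd ℝ ℝ ℝ) := ContinuousLinearMap.ext fun _ => rfl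
    rw [c]; exact a
  let H := (Equiv.ofBijective Φ bij).toHomeomorphOfContinuousOpen hΦ.continuous (isOpenMap_of_hasStrictFDerivAt_equiv hD)
  have hH : ContDiff ℝ ∞ H.symm := H.contDiff_symm (fun z => (hD z).hasFDerivAt) hΦ
  refine ⟨fun z => (H.symm z).1, hH.fst, fun x t => ?_, fun m t => ?_⟩
  · have a : Φ (H.symm (x, t)) = (x, t) := H.apply_symm_apply _
    simp only [Φ, Prod.mk.injEq] at a
    rw [← a.1]; congr 1; exact Prod.ext (by rw [a.1]) a.2.symm
  · have a : H.symm (Φ (m, t)) = (m, t) := H.symm_apply_apply _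
    simp only [Φ] at a
    simp [a]

theorem bdd {F : Type} [NormedAddCommGroup F] {g : ℝ × ℝ → F} (hc : Continuous g) (hp : ∀ z, g (z + (0, 2 * π)) = g z) (R : ℝ) :
    ∃ C, ∀ x t, |x| ≤ R → ‖g (x, t)‖ ≤ C := by
  obtain ⟨C, hC⟩ := ((isCompact_Icc (a := -R) (b := R)).prod (isCompact_Icc (a := 0) (b := 2 * π))).exists_bound_of_continuousOn hc.continuousOn
  refine ⟨C, fun x t hx => ?_⟩
  have p : Function.Periodic (fun t => g (x, t)) (2 * π) := fun t => by simpa using hp (x, t)
  obtain ⟨s, hs, e⟩ := p.exists_mem_Ico₀ two_pi_pos t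
  rw [e]
  exact hC _ ⟨abs_le.1 hx, hs.1, hs.2.le⟩

theorem allbdd {V : ℝ × ℝ → ℝ} (hV : ContDiff ℝ ∞ V) (hp : ∀ z, V (z + (0, 2 * π)) = V z) {R : ℝ}
    (h0 : ∀ x t, R ≤ |x| → V (x, t) = 0) (k : ℕ) : ∃ C, ∀ z, ‖iteratedFDeriv ℝ k V z‖ ≤ C := by
  obtain ⟨C, hC⟩ := bdd (g := iteratedFDeriv ℝ k V) (hV.continuous_iteratedFDeriv (by exact_mod_cast le_top)) (fun z => by
    rw [← iteratedFDeriv_comp_add_right]; simp only [hp]) R
  refine ⟨max C 0, fun ⟨x, t⟩ => ?_⟩
  rcases le_or_gt |x| R with a | a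
  · exact (hC x t a).trans (le_max_left _ _)
  · have e : V =ᶠ[𝓝 (x, t)] fun _ => 0 := by
      have : ∀ᶠ z : ℝ × ℝ in 𝓝 (x, t), R < |z.1| := (continuous_fst.abs.continuousAt).eventually (lt_mem_nhds a)
      exact this.mono fun z hz => h0 z.1 z.2 hz.le
    rw [(e.iteratedFDeriv ℝ k).self_of_nhds]
    simp

theorem decay {V : ℝ × ℝ → ℝ} (hV : Continuous V) (hp : ∀ z, V (z + (0, 2 * π)) = V z) {R : ℝ}
    (h0 : ∀ x t, R ≤ |x| → V (x, t) = 0) (N : ℕ) : ∃ C, ∀ x t, |V (x, t)| ≤ C * (1 + x ^ 2) ^ (-(N : ℝ) / 2) := by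
  obtain ⟨C, hC⟩ := bdd (g := fun z => V z * (1 + z.1 ^ 2) ^ ((N : ℝ) / 2))
    (hV.mul (Continuous.rpow_const (by fun_prop) fun z => .inl (by positivity))) (fun z => by simp [hp]) R
  refine ⟨max C 0, fun x t => ?_⟩
  have p : (0 : ℝ) < 1 + x ^ 2 := by positivity
  rcases le_or_gt |x| R with a | a
  · have := hC x t a
    rw [Real.norm_eq_abs, abs_mul, abs_of_pos (rpow_pos_of_pos p _)] at this
    rw [neg_div, rpow_neg p.le, ← div_eq_mul_inv, le_div_iff₀ (rpow_pos_of_pos p _)]
    exact this.trans (le_max_left _ _)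
  · rw [h0 x t a.le, abs_zero]; positivity

theorem lin {N N' : ℝ → ℝ} (hN : ∀ x, HasDerivAt N (N' x) x) (hi : Integrable N) (n0 : ∀ x, 0 ≤ N x) {R e : ℝ}
    (h : ∀ x, R ≤ x → e ≤ N' x) : e ≤ 0 := by
  by_contra c
  push Not at c
  have m : MonotoneOn (fun x => N x - e * x) (Ici R) := monotoneOn_of_deriv_nonneg (convex_Ici R)
    (fun x _ => ((hN x).sub ((hasDerivAt_id x).const_mul e)).continuousAt.continuousWithinAt)
    (fun x _ => ((hN x).sub ((hasDerivAt_id x).const_mul e)).differentiableAt.differentiableWithinAt) fun x hx => by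
      have : HasDerivAt (fun x => N x - e * x) (N' x - e * 1) x := (hN x).sub ((hasDerivAt_id x).const_mul e)
      rw [this.deriv]; have := h x (interior_subset hx); linarith
  have i : IntegrableOn (fun _ => e) (Ici (R + 1)) := hi.integrableOn.mono' aestronglyMeasurable_const
    (ae_restrict_of_forall_mem measurableSet_Ici fun x hx => by
      have a := m (mem_Ici.2 le_rfl) (mem_Ici.2 (by linarith [mem_Ici.1 hx] : R ≤ x)) (by linarith [mem_Ici.1 hx])
      have := n0 R; have := mem_Ici.1 hx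
      rw [Real.norm_eq_abs, abs_of_pos c]; simp only at a; nlinarith)
  simp [integrableOn_const_iff, c.ne'] at i

theorem noeig {W : ℝ → ℝ} (hW : Continuous W) (W0 : ∀ x, 0 ≤ W x) {R : ℝ} (hR : ∀ x, R ≤ |x| → W x = 0) (E : ℝ) {u v : ℝ → ℂ}
    (hu : ∀ x, HasDerivAt u (v x) x) (hv : ∀ x, HasDerivAt v (((W x - E : ℝ) : ℂ) * u x) x) (h2 : MemLp u 2) : u = 0 := by
  let N := fun x => (u x).re ^ 2 + (u x).im ^ 2
  let P := fun x => 2 * ((u x).re * (v x).re + (u x).im * (v x).im)
  let M := fun x => (v x).re ^ 2 + (v x).im ^ 2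
  have ur := fun x => Complex.reCLM.hasFDerivAt.comp_hasDerivAt x (hu x)
  have ui := fun x => Complex.imCLM.hasFDerivAt.comp_hasDerivAt x (hu x)
  have vr := fun x => Complex.reCLM.hasFDerivAt.comp_hasDerivAt x (hv x)
  have vi := fun x => Complex.imCLM.hasFDerivAt.comp_hasDerivAt x (hv x)
  have dN : ∀ x, HasDerivAt N (P x) x := fun x => (((ur x).pow 2).add ((ui x).pow 2)).congr_deriv (by simp [P]; ring)
  have dM : ∀ x, HasDerivAt M ((W x - E) * P x) x := fun x => (((vr x).pow 2).add ((vi x).pow 2)).congr_deriv (by simp [P]; ring)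
  have dP : ∀ x, HasDerivAt P (2 * M x + 2 * (W x - E) * N x) x := fun x =>
    ((((ur x).mul (vr x)).add ((ui x).mul (vi x))).const_mul 2).congr_deriv (by simp [M, N]; ring)
  have iN : Integrable N := by
    have := (memLp_two_iff_integrable_sq_norm h2.1).1 h2
    simpa only [Complex.sq_norm, Complex.normSq_apply, ← sq] using this
  have N0 : ∀ x, 0 ≤ N x := fun x => by positivity
  have M0 : ∀ x, 0 ≤ M x := fun x => by positivity
  have PM : ∀ x, |P x| ≤ N x + M x := fun x => abs_le.2 ⟨by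
    simp only [P, N, M]; nlinarith [sq_nonneg ((u x).re + (v x).re), sq_nonneg ((u x).im + (v x).im)], by
    simp only [P, N, M]; nlinarith [sq_nonneg ((u x).re - (v x).re), sq_nonneg ((u x).im - (v x).im)]⟩
  suffices h : ∀ x, N x = 0 from funext fun x => by
    have := h x; simp only [N] at this
    apply Complex.ext <;> simp <;> nlinarith [sq_nonneg (u x).re, sq_nonneg (u x).im]
  rcases le_or_gt E 0 with hE | hE
  · have m : Monotone P := monotone_of_deriv_nonneg (fun x => (dP x).differentiableAt) fun x => by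
      rw [(dP x).deriv]; have := mul_nonneg (sub_nonneg.2 (hE.trans (W0 x))) (N0 x); have := M0 x; nlinarith
    have p0 : ∀ x, P x = 0 := fun x => le_antisymm (lin dN iN N0 fun y hy => m hy) (by
      have := lin (N := fun y => N (-y)) (N' := fun y => -P (-y)) (R := -x) (e := -P x)
        (fun y => ((dN (-y)).comp y (hasDerivAt_neg y)).congr_deriv (by simp)) iN.comp_neg (fun y => N0 _)
        fun y hy => neg_le_neg (m (by linarith))
      linarith)
    have c := is_const_of_deriv_eq_zero (fun x => (dN x).differentiableAt) fun x => by rw [(dN x).deriv, p0]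
    intro x
    have : N = fun _ => N x := funext fun y => c y x
    rw [this] at iN
    exact (integrable_const_iff.1 iN).resolve_right fun f => by simpa using f.measure_univ_lt_top
  · set S := |R|
    have en : ∀ x, S ≤ x → M x + E * N x = M S + E * N S := fun x hx => by
      have d : ∀ y, HasDerivAt (fun y => M y + E * N y) (W y * P y) y := fun y =>
        ((dM y).add ((dN y).const_mul E)).congr_deriv (by ring)
      refine constant_of_has_deriv_right_zero (a := S) (b := x) (fun y _ => (d y).continuousAt.continuousWithinAt)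
        (fun y hy => ?_) x ⟨hx, le_rfl⟩
      have := (d y).hasDerivWithinAt (s := Ici y)
      rwa [hR y ((le_abs_self R).trans (hy.1.trans (le_abs_self y))), zero_mul] at this
    set e := M S + E * N S
    have e0 : e ≤ 0 := by
      by_contra c
      push Not at c
      have cN : Continuous N := continuous_iff_continuousAt.2 fun x => (dN x).continuousAt
      let Q := fun x => P x + 4 * E * ∫ y in S..x, N y
      have dQ : ∀ x, HasDerivAt (fun x => Q x - 2 * e * x) (2 * M x + 2 * (W x - E) * N x + 4 * E * N x - 2 * e * 1) x := fun x =>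
        ((dP x).add ((cN.integral_hasStrictDerivAt S x).hasDerivAt.const_mul (4 * E))).sub ((hasDerivAt_id x).const_mul (2 * e))
      have k : ∀ x, S ≤ x → Q x - 2 * e * x = Q S - 2 * e * S := fun x hx => by
        refine constant_of_has_deriv_right_zero (a := S) (b := x) (fun y _ => (dQ y).continuousAt.continuousWithinAt)
          (fun y hy => ?_) x ⟨hx, le_rfl⟩
        have := (dQ y).hasDerivWithinAt (s := Ici y)
        rw [hR y ((le_abs_self R).trans (hy.1.trans (le_abs_self y)))] at this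
        convert this using 1
        have := en y hy.1; linarith
      have b : ∀ x, S ≤ x → Q x ≤ e / E + e + 4 * E * ∫ y, N y := fun x hx => by
        have a1 := en x hx
        have a2 : N x ≤ e / E := by rw [le_div_iff₀ hE]; have := M0 x; linarith
        have a3 : M x ≤ e := by have := mul_nonneg hE.le (N0 x); linarith
        have a4 : ∫ y in S..x, N y ≤ ∫ y, N y := by
          rw [intervalIntegral.integral_of_le hx]
          exact setIntegral_le_integral iN (.of_forall N0)
        have := (le_abs_self _).trans (PM x)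
        simp only [Q]; nlinarith
      set B := e / E + e + 4 * E * ∫ y, N y
      have := b S le_rfl
      have p : 0 ≤ (B - Q S) / (2 * e) := div_nonneg (by linarith) (by linarith)
      have a1 := k (S + (B - Q S) / (2 * e) + 1) (by linarith)
      have a2 := b (S + (B - Q S) / (2 * e) + 1) (by linarith)
      have a3 : 2 * e * ((B - Q S) / (2 * e)) = B - Q S := by field_simp
      nlinarith
    have eN : N S = 0 ∧ M S = 0 := by
      have := mul_nonneg hE.le (N0 S); have := M0 S
      have a : E * N S = 0 := by linarith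
      exact ⟨(mul_eq_zero.1 a).resolve_left hE.ne', by linarith⟩
    intro x
    rcases le_total S x with a | a
    · have := en x a; have := M0 x; have := mul_nonneg hE.le (N0 x)
      have a : E * N x = 0 := by linarith
      exact (mul_eq_zero.1 a).resolve_left hE.ne'
    obtain ⟨C, hC⟩ := (isCompact_Icc (a := x) (b := S)).exists_bound_of_continuousOn (f := fun y => 1 + (W y - E)) (by fun_prop)
    have d : ∀ y, HasDerivAt (fun y => (N y + M y) * exp (C * y)) ((P y + (W y - E) * P y) * exp (C * y) + (N y + M y) * (exp (C * y) * (C * 1))) y :=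
      fun y => ((dN y).add (dM y)).mul ((hasDerivAt_id y).const_mul C).exp
    have m : MonotoneOn (fun y => (N y + M y) * exp (C * y)) (Icc x S) := monotoneOn_of_deriv_nonneg (convex_Icc _ _)
      (fun y _ => (d y).continuousAt.continuousWithinAt) (fun y _ => (d y).differentiableAt.differentiableWithinAt) fun y hy => by
        rw [(d y).deriv]
        have b1 := hC y (interior_subset hy)
        have b2 : |(1 + (W y - E)) * P y| ≤ C * (N y + M y) := by
          rw [abs_mul]; exact mul_le_mul b1 (PM y) (abs_nonneg _) ((norm_nonneg _).trans b1)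
        have := mul_nonneg (exp_pos (C * y)).le (by linarith [neg_abs_le ((1 + (W y - E)) * P y)] :
          0 ≤ (1 + (W y - E)) * P y + C * (N y + M y))
        nlinarith
    have := m ⟨le_rfl, a⟩ ⟨a, le_rfl⟩ a
    simp only [eN.1, eN.2, add_zero, zero_mul] at this
    have h3 := exp_pos (C * x)
    have := N0 x; have := M0 x
    nlinarith

end Pool.Agent.H.MP_4efd05_mp
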