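import Pool.Agent.H.MP_4efd05_mp.A

open MeasureTheory Filter Topology Set Real
open scoped ContDiff

namespace Pool.Agent.H.MP_4efd05_mp

def Fam (F : ℕ → ℝ → ℝ) : Prop := (∀ k, ContDiff ℝ ∞ (F k)) ∧ ∀ k m, HasDerivAt (F k) (F (k + 1) m) m

theorem fam_iter {f : ℝ → ℝ} (h : ContDiff ℝ ∞ f) : Fam fun k => deriv^[k] f := by
  have a : ∀ k, ContDiff ℝ ∞ (deriv^[k] f) := fun k => h.iterate_deriv k
  refine ⟨a, fun k m => ?_⟩
  simp only [Function.iterate_succ_apply']
  exact ((a k).differentiable (by simp) m).hasDerivAt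

theorem Fam.scale {F : ℕ → ℝ → ℝ} (h : Fam F) (a l : ℝ) : Fam fun k m => a / l ^ k * F k (m / l) :=
  ⟨fun k => contDiff_const.mul ((h.1 k).comp (contDiff_id.div_const l)), fun k m =>
    (((h.2 k (m / l)).comp m ((hasDerivAt_id m).div_const l)).const_mul (a / l ^ k)).congr_deriv (by
      beta_reduce; rw [pow_succ, ← div_div]; ring)⟩

theorem Fam.loc {F : ℕ → ℝ → ℝ} (h : Fam F) {U : Set ℝ} (hU : IsOpen U) {j : ℕ} {b c : ℝ} (h0 : ∀ m ∈ U, F j m = b * m + c) :
    (∀ m ∈ U, F (j + 1) m = b) ∧ ∀ k, ∀ m ∈ U, F (j + 2 + k) m = 0 := by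
  have s : ∀ {j : ℕ} {b c : ℝ}, (∀ m ∈ U, F j m = b * m + c) → ∀ m ∈ U, F (j + 1) m = b := fun {j b c} h0 m hm => by
    have e : F j =ᶠ[𝓝 m] fun m => b * m + c := (hU.eventually_mem hm).mono h0
    exact (h.2 j m).unique (((((hasDerivAt_id m).const_mul b).add_const c).congr_deriv (mul_one b)).congr_of_eventuallyEq e)
  refine ⟨s h0, fun k => ?_⟩
  induction k with
  | zero => exact s (j := j + 1) (c := b) fun m hm => by rw [s h0 m hm]; ring
  | succ k ih => exact s (j := j + 2 + k) (c := 0) fun m hm => by rw [ih m hm]; ring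

theorem ogt (R : ℝ) : IsOpen {m : ℝ | R < |m|} := isOpen_lt continuous_const continuous_abs
theorem olt (R : ℝ) : IsOpen {m : ℝ | |m| < R} := isOpen_lt continuous_abs continuous_const

theorem Fam.out {F : ℕ → ℝ → ℝ} (h : Fam F) {R : ℝ} (h0 : ∀ m, R < |m| → F 0 m = 0) (k : ℕ) (m : ℝ) (hm : R < |m|) : F k m = 0 := by
  have := h.loc (ogt R) (j := 0) (b := 0) (c := 0) fun m hm => by simpa using h0 m hm
  match k with
  | 0 => exact h0 m hm
  | 1 => exact this.1 m hm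
  | k + 2 => simpa [add_comm] using this.2 k m hm

theorem Fam.bd {F : ℕ → ℝ → ℝ} (h : Fam F) {R : ℝ} (h0 : ∀ m, R < |m| → F 0 m = 0) : ∃ K ≥ 0, ∀ k ≤ 4, ∀ m, |F k m| ≤ K := by
  have : ∀ k, ∃ K, ∀ m, |F k m| ≤ K := fun k => ((h.1 k).continuous.bounded_above_of_compact_support
    (.intro (isCompact_Icc (a := -R) (b := R)) fun x hx => h.out h0 k x (not_le.1 fun e => hx (abs_le.1 e))))
  choose K hK using this
  refine ⟨∑ k ∈ Finset.range 5, K k, Finset.sum_nonneg fun k _ => (abs_nonneg _).trans (hK k 0), fun k hk m => (hK k m).trans ?_⟩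
  exact Finset.single_le_sum (fun k _ => (abs_nonneg _).trans (hK k 0)) (Finset.mem_range.2 (by omega))

noncomputable def bt (r x : ℝ) : ℝ := smoothTransition (r + 1 - x) + smoothTransition (r + 1 + x) - 1

theorem bt_1 {r x : ℝ} (h : |x| ≤ r) : bt r x = 1 := by
  have := abs_le.1 h
  rw [bt, smoothTransition.one_of_one_le (by linarith), smoothTransition.one_of_one_le (by linarith)]; ring

theorem bt_m {r : ℝ} (h : 0 ≤ r) (x : ℝ) : (0 ≤ bt r x ∧ bt r x ≤ 1) ∧ (r + 1 ≤ |x| → bt r x = 0) := by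
  rcases le_total 0 x with a | a
  · rw [bt, smoothTransition.one_of_one_le (x := r + 1 + x) (by linarith), add_sub_cancel_right, abs_of_nonneg a]
    exact ⟨⟨smoothTransition.nonneg _, smoothTransition.le_one _⟩, fun e => smoothTransition.zero_of_nonpos (by linarith)⟩
  · rw [bt, smoothTransition.one_of_one_le (x := r + 1 - x) (by linarith), add_sub_cancel_left, abs_of_nonpos a]
    exact ⟨⟨smoothTransition.nonneg _, smoothTransition.le_one _⟩, fun e => smoothTransition.zero_of_nonpos (by linarith)⟩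

theorem bt_s (r : ℝ) : ContDiff ℝ ∞ (bt r) := by unfold bt; have := smoothTransition.contDiff (n := ⊤); fun_prop

structure Prof where
  l : ℝ
  K : ℝ
  E : ℕ → ℝ → ℝ
  Z : ℕ → ℝ → ℝ
  r : ℕ → ℝ → ℝ
  fE : Fam E
  fZ : Fam Z
  fr : Fam r
  K0 : 0 ≤ K
  lK : 100 + 32 * K ≤ l
  Ec : ∀ m, |m| < l → E 0 m = m
  Eo : ∀ m, 2 * l < |m| → E 0 m = 0
  Zc : ∀ m, |m| < 3 * l → Z 0 m = 1
  Zo : ∀ m, 4 * l < |m| → Z 0 m = 0
  E0 : ∀ m, |E 0 m| ≤ |m|
  Z0 : ∀ m, |Z 0 m| ≤ 1
  E1 : ∀ m, |E 1 m| ≤ K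
  Z1 : ∀ m, |Z 1 m| ≤ K
  E2 : ∀ k ≤ 2, ∀ m, |E (k + 2) m| ≤ 1 / 32
  Z2 : ∀ k ≤ 2, ∀ m, |Z (k + 2) m| ≤ 1 / 32
  rc : ∀ m, |m| < 5 * l → r 1 m = m
  rp : ∀ m, 2 ≤ |m| → r 2 m + 1 ≤ r 1 m ^ 2
  ro : ∃ a b, ∀ m, (5 * l + 1 ≤ m → r 0 m = m + a) ∧ (m ≤ -(5 * l + 1) → r 0 m = -m + b)

theorem rad {S : ℝ} (hS : 0 ≤ S) : ∃ r, Fam r ∧ (∀ m, |m| < S → r 1 m = m) ∧ (∀ m, 2 ≤ |m| → r 2 m + 1 ≤ r 1 m ^ 2) ∧
    ∃ a b, ∀ m, (S + 1 ≤ m → r 0 m = m + a) ∧ (m ≤ -(S + 1) → r 0 m = -m + b) := by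
  let τ := smoothTransition
  let g := fun m => m - (m - 1) * τ (m - S) - (m + 1) * τ (-m - S)
  have sτ : ContDiff ℝ ∞ τ := smoothTransition.contDiff (n := ⊤)
  have sg : ContDiff ℝ ∞ g := by simp only [g]; fun_prop
  let G := fun m => ∫ y in (0 : ℝ)..m, g y
  have dG : ∀ m, HasDerivAt G (g m) m := fun m => (sg.continuous.integral_hasStrictDerivAt 0 m).hasDerivAt
  have eG : deriv G = g := funext fun m => (dG m).deriv
  have sG : ContDiff ℝ ∞ G := contDiff_infty_iff_deriv.2 ⟨fun m => (dG m).differentiableAt, eG ▸ sg⟩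
  have dτ : ∀ m, HasDerivAt τ (deriv τ m) m := fun m => (sτ.differentiable (by simp) m).hasDerivAt
  have pτ : ∀ m, 0 ≤ deriv τ m := fun m => smoothTransition.monotone.deriv_nonneg
  have zτ : ∀ m < 0, τ m = 0 ∧ deriv τ m = 0 := fun m hm => by
    have e : τ =ᶠ[𝓝 m] fun _ => 0 := (gt_mem_nhds hm : ∀ᶠ s in 𝓝 m, s < (0 : ℝ)).mono fun s hs => smoothTransition.zero_of_nonpos hs.le
    exact ⟨e.self_of_nhds, by simpa using e.deriv_eq⟩
  have dg : ∀ m, deriv g m = 1 - (1 * τ (m - S) + (m - 1) * deriv τ (m - S)) - (1 * τ (-m - S) + (m + 1) * (deriv τ (-m - S) * -1)) :=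
    fun m => (((hasDerivAt_id m).sub (((hasDerivAt_id m).sub_const 1).mul ((dτ _).comp_sub_const m S))).sub
      (((hasDerivAt_id m).add_const 1).mul ((dτ _).comp m ((hasDerivAt_neg m).sub_const S)))).deriv
  refine ⟨fun k => deriv^[k] G, fam_iter sG, fun m hm => ?_, fun m hm => ?_, G (S + 1) - (S + 1), G (-(S + 1)) - (S + 1), fun m => ⟨fun hm => ?_, fun hm => ?_⟩⟩
  · have := abs_lt.1 hm
    simp only [Function.iterate_one, eG, g, (zτ (m - S) (by linarith)).1, (zτ (-m - S) (by linarith)).1]; ring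
  · simp only [Function.iterate_succ_apply', Function.iterate_zero_apply, eG, dg, g]
    rcases le_abs.1 hm with a | a
    · rw [(zτ (-m - S) (by linarith)).1, (zτ (-m - S) (by linarith)).2]
      have := mul_nonneg (by linarith : 0 ≤ m - 1) (pτ (m - S))
      have b : 0 ≤ 1 - τ (m - S) := sub_nonneg.2 (smoothTransition.le_one _)
      nlinarith [mul_nonneg (by linarith : 0 ≤ m - 2) b, sq_nonneg ((m - 1) * (1 - τ (m - S)))]
    · rw [(zτ (m - S) (by linarith)).1, (zτ (m - S) (by linarith)).2]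
      have := mul_nonneg (by linarith : 0 ≤ -m - 1) (pτ (-m - S))
      have b : 0 ≤ 1 - τ (-m - S) := sub_nonneg.2 (smoothTransition.le_one _)
      nlinarith [mul_nonneg (by linarith : 0 ≤ -m - 2) b, sq_nonneg ((-m - 1) * (1 - τ (-m - S)))]
  · have := intervalIntegral.integral_eq_sub_of_hasDerivAt (a := S + 1) (b := m) (fun y _ => dG y) (sg.continuous.intervalIntegrable _ _)
    rw [intervalIntegral.integral_congr (g := fun _ => 1) fun y hy => by
      rw [uIcc_of_le hm] at hy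
      simp only [g, (zτ (-y - S) (by linarith [hy.1])).1, τ, smoothTransition.one_of_one_le (x := y - S) (by linarith [hy.1])]; ring] at this
    simp at this ⊢; linarith
  · have := intervalIntegral.integral_eq_sub_of_hasDerivAt (a := m) (b := -(S + 1)) (fun y _ => dG y) (sg.continuous.intervalIntegrable _ _)
    rw [intervalIntegral.integral_congr (g := fun _ => -1) fun y hy => by
      rw [uIcc_of_le hm] at hy
      simp only [g, (zτ (y - S) (by linarith [hy.2])).1, τ, smoothTransition.one_of_one_le (x := -y - S) (by linarith [hy.2])]; ring] at this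
    simp at this ⊢; linarith

theorem prof : Nonempty Prof := by
  have fP := fam_iter (f := fun y => y * bt 1 y) (contDiff_id.mul (bt_s 1))
  have fQ := fam_iter (bt_s 3)
  obtain ⟨K1, k1, b1⟩ := fP.bd (R := 2) fun m hm => by simp [(bt_m zero_le_one m).2 (by linarith)]
  obtain ⟨K2, k2, b2⟩ := fQ.bd (R := 4) fun m hm => by simp [(bt_m (by norm_num : (0 : ℝ) ≤ 3) m).2 (by linarith)]
  set l := 100 + 32 * (K1 + K2) with hl
  have l1 : 1 ≤ l := by linarith
  have l0 : 0 < l := by linarith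
  obtain ⟨r, fr, rc, rp, ro⟩ := rad (S := 5 * l) (by linarith)
  have ad : ∀ m, |m / l| = |m| / l := fun m => by rw [abs_div, abs_of_pos l0]
  have sm : ∀ (a x K : ℝ) (k : ℕ), 0 ≤ a → a ≤ l → |x| ≤ K → 32 * K ≤ l → |a / l ^ (k + 2) * x| ≤ 1 / 32 := fun a x K k a0 al hx hK => by
    have : l ^ 2 ≤ l ^ (k + 2) := pow_le_pow_right₀ l1 (by omega)
    rw [abs_mul, abs_of_nonneg (by positivity), div_mul_eq_mul_div, div_le_iff₀ (by positivity)]
    nlinarith [mul_le_mul al hx (abs_nonneg _) l0.le]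
  refine ⟨⟨l, K1 + K2, _, _, r, fP.scale l l, fQ.scale 1 l, fr, by linarith, le_rfl, fun m hm => ?_, fun m hm => ?_, fun m hm => ?_,
    fun m hm => ?_, fun m => ?_, fun m => ?_, fun m => ?_, fun m => ?_, fun k hk m => sm _ _ K1 k l0.le le_rfl (b1 _ (by omega) _) (by linarith),
    fun k hk m => sm _ _ K2 k zero_le_one l1 (b2 _ (by omega) _) (by linarith), rc, rp, ro⟩⟩
  · simp only [Function.iterate_zero_apply]
    rw [bt_1 (by rw [ad, div_le_one l0]; exact hm.le)]; field_simp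
  · simp only [Function.iterate_zero_apply]
    rw [(bt_m zero_le_one _).2 (by rw [ad, le_div_iff₀ l0]; linarith)]; simp
  · simp only [Function.iterate_zero_apply]
    rw [bt_1 (by rw [ad, div_le_iff₀ l0]; exact hm.le)]; simp
  · simp only [Function.iterate_zero_apply]
    rw [(bt_m (by norm_num) _).2 (by rw [ad, le_div_iff₀ l0]; linarith)]; simp
  · simp only [Function.iterate_zero_apply]
    have := (bt_m zero_le_one (m / l)).1
    rw [show l / l ^ 0 * (m / l * bt 1 (m / l)) = m * bt 1 (m / l) by field_simp, abs_mul, abs_of_nonneg this.1]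
    exact mul_le_of_le_one_right (abs_nonneg _) this.2
  · have := (bt_m (by norm_num : (0 : ℝ) ≤ 3) (m / l)).1
    simpa [abs_of_nonneg this.1] using this.2
  · have := b1 1 (by omega) (m / l)
    rw [pow_one, div_self l0.ne', one_mul]; linarith
  · have := b2 1 (by omega) (m / l)
    rw [pow_one, abs_mul, abs_of_pos (by positivity)]
    nlinarith [mul_le_mul ((div_le_one l0).2 l1) this (abs_nonneg _) zero_le_one]

end Pool.Agent.H.MP_4efd05_mp
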