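import Pool.Agent.H.MP_4efd05_mp.B

open MeasureTheory Filter Topology Set Real
open scoped ContDiff

namespace Pool.Agent.H.MP_4efd05_mp

theorem ramp {m u j k t K x : ℝ} (K0 : 0 ≤ K) (hm : 100 + 32 * K ≤ |m|) (u1 : 1 / 2 ≤ u) (u2 : u ≤ 2) (hj : |j| ≤ 1) (hk : |k| ≤ 1)
    (ht : t ≤ 9 + 4 * |m| + 112 * K ^ 2) :
    0 ≤ (-m * u - j * u ^ 2 / 2) ^ 2 + (-1 * u + m * j * u ^ 2 - k * u ^ 2 / 2 + j ^ 2 * u ^ 3) * u - t + x ^ 2 / 4 := by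
  have u0 : 0 ≤ u := by linarith
  have a1 : |j * u / 2| ≤ 1 := by
    rw [abs_div, abs_mul, abs_of_nonneg u0, abs_two]; nlinarith [abs_nonneg j]
  have a2 : |m| - 1 ≤ |m + j * u / 2| := by have := abs_add_le (m + j * u / 2) (-(j * u / 2)); simp only [add_neg_cancel_right, abs_neg] at this; linarith
  have a3 : (|m| - 1) ^ 2 ≤ (m + j * u / 2) ^ 2 := by rw [← sq_abs (m + _)]; exact pow_le_pow_left₀ (by linarith) a2 2
  have a4 : (|m| - 1) ^ 2 / 4 ≤ (-m * u - j * u ^ 2 / 2) ^ 2 := by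
    rw [show (-m * u - j * u ^ 2 / 2) ^ 2 = (m + j * u / 2) ^ 2 * u ^ 2 by ring]
    nlinarith [sq_nonneg (m + j * u / 2), mul_le_mul u1 u1 (by norm_num) u0]
  have b2 : u ^ 2 ≤ 4 := by nlinarith
  have b3 : u ^ 3 ≤ 8 := by nlinarith
  have c3 : 0 ≤ u ^ 3 := by positivity
  have b4 : -(8 * |m|) ≤ m * j * u ^ 3 := by
    have : |m * j * u ^ 3| ≤ |m| * 1 * 8 := by
      rw [abs_mul, abs_mul, abs_of_nonneg c3]; gcongr
    linarith [neg_abs_le (m * j * u ^ 3)]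
  have b5 : k * u ^ 3 ≤ 8 := by nlinarith [abs_le.1 hk]
  have b6 : 0 ≤ j ^ 2 * u ^ 4 := by positivity
  have e : (-1 * u + m * j * u ^ 2 - k * u ^ 2 / 2 + j ^ 2 * u ^ 3) * u = -u ^ 2 + m * j * u ^ 3 - k * u ^ 3 / 2 + j ^ 2 * u ^ 4 := by ring
  rw [e]
  have : (100 + 32 * K) * |m| ≤ |m| * |m| := by gcongr
  have : (100 + 32 * K) ^ 2 ≤ |m| ^ 2 := by gcongr
  nlinarith [sq_nonneg x]

namespace Prof

variable (P : Prof)

noncomputable def X (z : ℝ × ℝ) : ℝ := z.1 + 8 * cos z.2 * P.E 1 z.1 + -8 * cos z.2 ^ 2 * P.Z 1 z.1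
noncomputable def J (z : ℝ × ℝ) : ℝ := 1 + 8 * cos z.2 * P.E 2 z.1 + -8 * cos z.2 ^ 2 * P.Z 2 z.1
noncomputable def Jm (z : ℝ × ℝ) : ℝ := 8 * cos z.2 * P.E 3 z.1 + -8 * cos z.2 ^ 2 * P.Z 3 z.1
noncomputable def Jmm (z : ℝ × ℝ) : ℝ := 8 * cos z.2 * P.E 4 z.1 + -8 * cos z.2 ^ 2 * P.Z 4 z.1
noncomputable def Xt (z : ℝ × ℝ) : ℝ := -8 * sin z.2 * P.E 1 z.1 + 16 * cos z.2 * sin z.2 * P.Z 1 z.1
noncomputable def Jt (z : ℝ × ℝ) : ℝ := -8 * sin z.2 * P.E 2 z.1 + 16 * cos z.2 * sin z.2 * P.Z 2 z.1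
noncomputable def a (z : ℝ × ℝ) : ℝ := -P.r 0 z.1 - log (P.J z) / 2
noncomputable def q (z : ℝ × ℝ) : ℝ := -P.r 1 z.1 * (P.J z)⁻¹ - P.Jm z * (P.J z)⁻¹ ^ 2 / 2
noncomputable def qm (z : ℝ × ℝ) : ℝ :=
  -P.r 2 z.1 * (P.J z)⁻¹ + P.r 1 z.1 * P.Jm z * (P.J z)⁻¹ ^ 2 - P.Jmm z * (P.J z)⁻¹ ^ 2 / 2 + P.Jm z ^ 2 * (P.J z)⁻¹ ^ 3
noncomputable def θ (z : ℝ × ℝ) : ℝ := z.2 + (-8 * sin z.2 * P.E 0 z.1 + 16 * cos z.2 * sin z.2 * P.Z 0 z.1
  + -32 * cos z.2 * sin z.2 * P.E 1 z.1 ^ 2 + -64 * cos z.2 ^ 3 * sin z.2 * P.Z 1 z.1 ^ 2) / 2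
noncomputable def θt (z : ℝ × ℝ) : ℝ := 1 + (-8 * cos z.2 * P.E 0 z.1 + 16 * (cos z.2 ^ 2 - sin z.2 ^ 2) * P.Z 0 z.1
  + 32 * (sin z.2 ^ 2 - cos z.2 ^ 2) * P.E 1 z.1 ^ 2 + 64 * (3 * cos z.2 ^ 2 * sin z.2 ^ 2 - cos z.2 ^ 4) * P.Z 1 z.1 ^ 2) / 2
noncomputable def U (z : ℝ × ℝ) : ℝ := P.q z ^ 2 + P.qm z * (P.J z)⁻¹ - P.θt z + P.Xt z ^ 2 / 4

theorem l0 : 100 ≤ P.l := by linarith [P.lK, P.K0]

theorem sm {x y : ℝ} (t : ℝ) (hx : |x| ≤ 1 / 32) (hy : |y| ≤ 1 / 32) : |8 * cos t * x + -8 * cos t ^ 2 * y| ≤ 1 / 2 := by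
  have a : |cos t * x| ≤ 1 * (1 / 32) := by rw [abs_mul]; gcongr; exact abs_cos_le_one t
  have b : |cos t ^ 2 * y| ≤ 1 * (1 / 32) := by rw [abs_mul]; gcongr; rw [abs_sq]; exact cos_sq_le_one t
  have := abs_le.1 a; have := abs_le.1 b
  rw [abs_le]; constructor <;> nlinarith

theorem Jb (z : ℝ × ℝ) : 1 / 2 ≤ P.J z ∧ P.J z ≤ 2 := by
  have := abs_le.1 (sm z.2 (P.E2 0 (by omega) z.1) (P.Z2 0 (by omega) z.1))
  unfold J; constructor <;> linarith [this.1, this.2]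

theorem J0 (z : ℝ × ℝ) : 0 < P.J z := by linarith [(P.Jb z).1]

theorem Zz {m : ℝ} (h : |m| < 3 * P.l) : P.Z 1 m = 0 ∧ ∀ k, P.Z (2 + k) m = 0 := by
  have := P.fZ.loc (olt (3 * P.l)) (j := 0) (b := 0) (c := 1) fun m hm => by simpa using P.Zc m hm
  exact ⟨this.1 m h, fun k => by simpa using this.2 k m h⟩

theorem dis (m : ℝ) : P.E 1 m * P.Z 2 m = 0 ∧ P.Z 1 m * P.E 2 m = 0 := by
  rcases lt_or_ge |m| (3 * P.l) with h | h
  · simp [(P.Zz h).1, (P.Zz h).2 0]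
  · have := fun k => P.fE.out P.Eo k m (by linarith [P.l0])
    simp [this]

variable {f g : ℝ → ℝ} {f' g' s : ℝ}

theorem dX (hf : HasDerivAt f f' s) (hg : HasDerivAt g g' s) :
    HasDerivAt (fun s => P.X (f s, g s)) (P.J (f s, g s) * f' + P.Xt (f s, g s) * g') s :=
  ((hf.add ((hg.cos.const_mul 8).mul ((P.fE.2 1 _).comp s hf))).add (((hg.cos.pow 2).const_mul (-8)).mul ((P.fZ.2 1 _).comp s hf))).congr_deriv
    (by simp [J, Xt]; ring)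

theorem dJ (hf : HasDerivAt f f' s) (hg : HasDerivAt g g' s) :
    HasDerivAt (fun s => P.J (f s, g s)) (P.Jm (f s, g s) * f' + P.Jt (f s, g s) * g') s :=
  ((((hg.cos.const_mul 8).mul ((P.fE.2 2 _).comp s hf)).const_add 1).add (((hg.cos.pow 2).const_mul (-8)).mul ((P.fZ.2 2 _).comp s hf))).congr_deriv
    (by simp [Jm, Jt]; ring)

theorem da (hf : HasDerivAt f f' s) (hg : HasDerivAt g g' s) :
    HasDerivAt (fun s => P.a (f s, g s)) (P.q (f s, g s) * P.J (f s, g s) * f' - P.Jt (f s, g s) * (P.J (f s, g s))⁻¹ / 2 * g') s :=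
  (((P.fr.2 0 _).comp s hf).neg.sub (((P.dJ hf hg).log (P.J0 _).ne').div_const 2)).congr_deriv
    (by have := (P.J0 (f s, g s)).ne'; simp only [q]; field_simp; ring)

theorem dθ (hf : HasDerivAt f f' s) (hg : HasDerivAt g g' s) :
    HasDerivAt (fun s => P.θ (f s, g s)) (P.Xt (f s, g s) * P.J (f s, g s) / 2 * f' + P.θt (f s, g s) * g') s :=
  (hg.add ((((((hg.sin.const_mul (-8)).mul ((P.fE.2 0 _).comp s hf)).add
    (((hg.cos.const_mul 16).mul hg.sin).mul ((P.fZ.2 0 _).comp s hf))).add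
    (((hg.cos.const_mul (-32)).mul hg.sin).mul (((P.fE.2 1 _).comp s hf).pow 2))).add
    ((((hg.cos.pow 3).const_mul (-64)).mul hg.sin).mul (((P.fZ.2 1 _).comp s hf).pow 2))).div_const 2)).congr_deriv (by
      simp [Xt, J, θt]
      linear_combination (-32 * sin (g s) * cos (g s) ^ 2 * f') * (P.dis (f s)).1 + (-64 * sin (g s) * cos (g s) ^ 2 * f') * (P.dis (f s)).2)

theorem dq (hf : HasDerivAt f f' s) (t : ℝ) : HasDerivAt (fun s => P.q (f s, t)) (P.qm (f s, t) * f') s := by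
  have i := (P.dJ hf (hasDerivAt_const s t)).inv (P.J0 _).ne'
  have j : HasDerivAt (fun s => P.Jm (f s, t)) (P.Jmm (f s, t) * f') s :=
    ((((P.fE.2 3 _).comp s hf).const_mul (8 * cos t)).add (((P.fZ.2 3 _).comp s hf).const_mul (-8 * cos t ^ 2))).congr_deriv (by simp [Jmm]; ring)
  exact ((((P.fr.2 1 _).comp s hf).neg.mul i).sub ((j.mul (i.pow 2)).div_const 2)).congr_deriv
    (by have := (P.J0 (f s, t)).ne'; simp [qm]; field_simp; ring)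

theorem dXt (hf : HasDerivAt f f' s) (t : ℝ) : HasDerivAt (fun s => P.Xt (f s, t)) (P.Jt (f s, t) * f') s :=
  ((((P.fE.2 1 _).comp s hf).const_mul (-8 * sin t)).add (((P.fZ.2 1 _).comp s hf).const_mul (16 * cos t * sin t))).congr_deriv (by simp [Jt]; ring)

theorem smooth : ContDiff ℝ ∞ P.X ∧ ContDiff ℝ ∞ P.a ∧ ContDiff ℝ ∞ P.θ ∧ ContDiff ℝ ∞ P.U := by
  have e := P.fE.1; have z := P.fZ.1; have r := P.fr.1
  have j : ContDiff ℝ ∞ P.J := by unfold J; fun_prop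
  have i : ContDiff ℝ ∞ fun z => (P.J z)⁻¹ := j.inv fun z => (P.J0 z).ne'
  have l : ContDiff ℝ ∞ fun z => log (P.J z) := j.log fun z => (P.J0 z).ne'
  refine ⟨by unfold X; fun_prop, by unfold a; fun_prop, by unfold θ; fun_prop, ?_⟩
  unfold U q qm θt Xt Jm Jmm; fun_prop

theorem core {m : ℝ} (t : ℝ) (h : |m| < P.l) : 2 ≤ P.U (m, t) := by
  have e := P.fE.loc (olt P.l) (j := 0) (b := 1) (c := 0) fun m hm => by simpa using P.Ec m hm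
  have z := P.Zz (m := m) (by linarith [P.l0])
  have r := P.fr.loc (olt (5 * P.l)) (j := 1) (b := 1) (c := 0) fun m hm => by simpa using P.rc m hm
  have h5 : |m| < 5 * P.l := by linarith [P.l0]
  have e2 : P.E 2 m = 0 := e.2 0 m h
  have e3 : P.E 3 m = 0 := e.2 1 m h
  have e4 : P.E 4 m = 0 := e.2 2 m h
  have e1 : P.E 1 m = 1 := e.1 m h
  have r2 : P.r 2 m = 1 := r.1 m h5
  simp only [U, q, qm, θt, Xt, J, Jm, Jmm, e1, e2, e3, e4, z.1, z.2 0, z.2 1, z.2 2, r2, P.rc m h5, P.Ec m h, P.Zc m (by linarith [P.l0])]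
  norm_num
  nlinarith [sq_nonneg (m + 2 * cos t), sin_sq_add_cos_sq t, sq_nonneg (sin t)]

theorem outer {m : ℝ} (t : ℝ) (h : 4 * P.l < |m|) :
    P.X (m, t) = m ∧ P.a (m, t) = -P.r 0 m ∧ P.θ (m, t) = t ∧ P.U (m, t) = P.r 1 m ^ 2 - P.r 2 m - 1 := by
  have e := fun k => P.fE.out P.Eo k m (by linarith [P.l0])
  have z := fun k => P.fZ.out P.Zo k m h
  simp [X, a, θ, U, q, qm, θt, Xt, J, Jm, Jmm, e, z]; ring

theorem U0 (m t : ℝ) : 0 ≤ P.U (m, t) := by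
  rcases lt_or_ge |m| P.l with h | h
  · linarith [P.core t h]
  rcases lt_or_ge (4 * P.l) |m| with h4 | h4
  · rw [(P.outer t h4).2.2.2]; linarith [P.rp m (by linarith [P.l0])]
  have r := P.fr.loc (olt (5 * P.l)) (j := 1) (b := 1) (c := 0) fun m hm => by simpa using P.rc m hm
  have h5 : |m| < 5 * P.l := by linarith [P.l0]
  have r2 : P.r 2 m = 1 := r.1 m h5
  have j := P.Jb (m, t)
  have j0 := P.J0 (m, t)
  simp only [U, q, qm, r2, P.rc m h5]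
  refine ramp P.K0 (P.lK.trans h) ?_ ?_ ((sm t (P.E2 1 (by omega) m) (P.Z2 1 (by omega) m)).trans (by norm_num))
    ((sm t (P.E2 2 (by omega) m) (P.Z2 2 (by omega) m)).trans (by norm_num)) ?_
  · rw [le_inv_comm₀ (by norm_num) j0]; linarith [j.2]
  · rw [inv_le_comm₀ j0 (by norm_num)]; linarith [j.1]
  have a1 : |cos t * P.E 0 m| ≤ 1 * |m| := by
    rw [abs_mul]; exact mul_le_mul (abs_cos_le_one t) (P.E0 m) (abs_nonneg _) zero_le_one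
  have c2 := cos_sq_le_one t; have s2 := sin_sq_le_one t
  have c0 := sq_nonneg (cos t); have s0 := sq_nonneg (sin t)
  have a2 : |(cos t ^ 2 - sin t ^ 2) * P.Z 0 m| ≤ 1 * 1 := by
    rw [abs_mul]; gcongr; exacts [abs_le.2 ⟨by linarith, by linarith⟩, P.Z0 m]
  have a3 : P.E 1 m ^ 2 ≤ P.K ^ 2 := sq_le_sq' (abs_le.1 (P.E1 m)).1 (abs_le.1 (P.E1 m)).2
  have a4 : P.Z 1 m ^ 2 ≤ P.K ^ 2 := sq_le_sq' (abs_le.1 (P.Z1 m)).1 (abs_le.1 (P.Z1 m)).2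
  have a5 : (sin t ^ 2 - cos t ^ 2) * P.E 1 m ^ 2 ≤ 1 * P.K ^ 2 := mul_le_mul (by linarith) a3 (sq_nonneg _) zero_le_one
  have a6 : (3 * cos t ^ 2 * sin t ^ 2 - cos t ^ 4) * P.Z 1 m ^ 2 ≤ 3 * P.K ^ 2 :=
    mul_le_mul (by nlinarith [sq_nonneg (cos t ^ 2)]) a4 (sq_nonneg _) (by norm_num)
  have := abs_le.1 a1; have := abs_le.1 a2
  simp only [θt]; nlinarith

end Prof

end Pool.Agent.H.MP_4efd05_mp
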