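import Pool.Agent.H.MP_4efd05_mp.C

open MeasureTheory Filter Topology Set Real
open scoped ContDiff NNReal

namespace Pool.Agent.H.MP_4efd05_mp

theorem wt (δ : ℝ) : ∃ C, ∀ x : ℝ, (1 + x ^ 2) ^ (δ / 2) * exp (-|x|) ≤ C * (1 + x ^ 2)⁻¹ := by
  obtain ⟨n, hn⟩ := exists_nat_ge (δ / 2)
  refine ⟨(2 * (n + 1)).factorial * exp 1, fun x => ?_⟩
  have p : (1 : ℝ) ≤ 1 + x ^ 2 := by nlinarith
  have a : (1 + x ^ 2) ^ (δ / 2) ≤ (1 + x ^ 2) ^ n := (rpow_le_rpow_of_exponent_le p hn).trans_eq (rpow_natCast _ _)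
  have b := pow_div_factorial_le_exp (1 + |x|) (by positivity) (2 * (n + 1))
  have c : (1 + x ^ 2) ^ (n + 1) ≤ (1 + |x|) ^ (2 * (n + 1)) := by
    rw [pow_mul]; gcongr; nlinarith [abs_nonneg x, sq_abs x]
  rw [div_le_iff₀ (by positivity), exp_add] at b
  rw [← div_eq_mul_inv, le_div_iff₀ (by positivity), exp_neg, mul_right_comm, ← div_eq_mul_inv, div_le_iff₀ (exp_pos _)]
  calc _ ≤ (1 + x ^ 2) ^ n * (1 + x ^ 2) := by gcongr
    _ ≤ _ := by rw [← pow_succ]; linarith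

theorem mem2 (C : ℝ) : MemLp (fun x : ℝ => C * (1 + x ^ 2)⁻¹) 2 := by
  refine MemLp.const_mul ((memLp_two_iff_integrable_sq (by fun_prop)).2 (integrable_inv_one_add_sq.mono' (by fun_prop) (.of_forall fun x => ?_))) C
  have p : (1 : ℝ) ≤ 1 + x ^ 2 := by nlinarith
  have := inv_le_one_of_one_le₀ p
  have : 0 ≤ (1 + x ^ 2)⁻¹ := by positivity
  rw [Real.norm_eq_abs, abs_sq]; nlinarith

theorem l2 {ψ : ℝ × ℝ → ℂ} (hc : Continuous ψ) {B : ℝ} (hb : ∀ x t, ‖ψ (x, t)‖ ≤ B * exp (-|x|)) :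
    (∃ u : ℝ → Lp ℂ 2 (volume : Measure ℝ), Continuous u ∧ ∀ t, u t =ᵐ[volume] fun x => ψ (x, t)) ∧
    ∀ δ : ℝ, ∃ C : ℝ≥0, ∀ t, eLpNorm (fun x : ℝ => ((1 + x ^ 2) ^ (δ / 2) : ℝ) • ψ (x, t)) 2 volume ≤ C := by
  have B0 : 0 ≤ B := nonneg_of_mul_nonneg_left ((norm_nonneg _).trans (hb 0 0)) (exp_pos _)
  have w : ∀ δ : ℝ, ∃ C, ∀ x t : ℝ, ‖((1 + x ^ 2) ^ (δ / 2) : ℝ) • ψ (x, t)‖ ≤ C * (1 + x ^ 2)⁻¹ := fun δ => by
    obtain ⟨C, hC⟩ := wt δ
    refine ⟨B * C, fun x t => ?_⟩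
    rw [norm_smul, Real.norm_eq_abs, abs_of_nonneg (by positivity), mul_assoc]
    refine le_trans ?_ (mul_le_mul_of_nonneg_left (hC x) B0)
    rw [mul_left_comm]; gcongr; exact hb x t
  refine ⟨?_, fun δ => ?_⟩
  · obtain ⟨C, hC⟩ := w 0
    simp only [zero_div, rpow_zero, one_smul] at hC
    have m : ∀ t, MemLp (fun x => ψ (x, t)) 2 := fun t => (mem2 C).mono' (by fun_prop) (.of_forall fun x => hC x t)
    refine ⟨fun t => (m t).toLp, continuous_iff_continuousAt.2 fun t => ?_, fun t => (m t).coeFn_toLp⟩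
    have e : ∀ s, ‖(m s).toLp - (m t).toLp‖ = √(∫ x, ‖ψ (x, s) - ψ (x, t)‖ ^ 2) := fun s => by
      rw [← sqrt_sq (norm_nonneg _), ← real_inner_self_eq_norm_sq, L2.inner_def]
      congr 1
      refine integral_congr_ae ?_
      filter_upwards [Lp.coeFn_sub (m s).toLp (m t).toLp, (m s).coeFn_toLp, (m t).coeFn_toLp] with x a b c
      rw [real_inner_self_eq_norm_sq, a, Pi.sub_apply, b, c]
    have c : Continuous fun s => ∫ x, ‖ψ (x, s) - ψ (x, t)‖ ^ 2 :=
      continuous_of_dominated (bound := fun x => (2 * C * (1 + x ^ 2)⁻¹) ^ 2) (fun s => by fun_prop)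
        (fun s => .of_forall fun x => by
          rw [Real.norm_eq_abs, abs_sq]
          gcongr
          linarith [norm_sub_le (ψ (x, s)) (ψ (x, t)), hC x s, hC x t])
        ((memLp_two_iff_integrable_sq (mem2 _).1).1 (mem2 _)) (.of_forall fun x => by fun_prop)
    rw [ContinuousAt, tendsto_iff_norm_sub_tendsto_zero]
    simp only [e]
    simpa using c.sqrt.tendsto t
  · obtain ⟨C, hC⟩ := w δ
    refine ⟨(eLpNorm (fun x : ℝ => C * (1 + x ^ 2)⁻¹) 2 volume).toNNReal, fun t => ?_⟩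
    rw [ENNReal.coe_toNNReal (mem2 C).2.ne]
    exact eLpNorm_mono_real fun x => hC x t

theorem main : ∃ (V : ℝ × ℝ → ℝ) (ψ : ℝ × ℝ → ℂ) (R a b : ℝ), (∀ z, 0 ≤ V z) ∧ V ≠ 0 ∧ ContDiff ℝ ∞ V ∧
    (∀ z, V (z + (0, 2 * π)) = V z) ∧ (∀ x t, R ≤ |x| → V (x, t) = 0) ∧ ContDiff ℝ ∞ ψ ∧ (∀ z, ψ z ≠ 0) ∧
    (∀ z, ψ (z + (0, 2 * π)) = ψ z) ∧
    (∀ x t, Complex.I * deriv (fun s => ψ (x, s)) t = -deriv (deriv fun y => ψ (y, t)) x + V (x, t) * ψ (x, t)) ∧
    ∀ x t : ℝ, (R ≤ x → ψ (x, t) = Complex.exp (a - x + t * Complex.I)) ∧ (x ≤ -R → ψ (x, t) = Complex.exp (b + x + t * Complex.I)) := by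
  obtain ⟨P⟩ := prof
  have l0 := P.l0
  obtain ⟨sX, sa, sθ, sU⟩ := P.smooth
  obtain ⟨μ, sμ, h1, h2⟩ := inv2 (J := P.J) sX (fun m t => by simpa using P.dX (hasDerivAt_id m) (hasDerivAt_const m t)) P.J0 fun t x => by
    have c : Continuous fun m => P.X (m, t) := sX.continuous.comp (by fun_prop)
    have a1 := (P.outer (m := |x| + 5 * P.l) t (by rw [abs_of_pos (by positivity)]; linarith [abs_nonneg x])).1
    have a2 := (P.outer (m := -(|x| + 5 * P.l)) t (by rw [abs_neg, abs_of_pos (by positivity)]; linarith [abs_nonneg x])).1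
    exact intermediate_value_univ _ _ c ⟨a2.le.trans (by linarith [neg_abs_le x]), le_trans (by linarith [le_abs_self x]) a1.ge⟩
  have mo : ∀ x t, 4 * P.l < |x| → μ (x, t) = x := fun x t h => by simpa [(P.outer t h).1] using h2 x t
  have mp : ∀ x t, μ (x, t + 2 * π) = μ (x, t) := fun x t => by
    have := h2 (μ (x, t)) (t + 2 * π)
    rwa [show P.X (μ (x, t), t + 2 * π) = P.X (μ (x, t), t) by simp [Prof.X], h1] at this
  have dμ := sμ.differentiable (by simp)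
  have mx : ∀ x t, HasDerivAt (fun y => μ (y, t)) (P.J (μ (x, t), t))⁻¹ x := fun x t => by
    have d := (show DifferentiableAt ℝ (fun y => μ (y, t)) x by fun_prop).hasDerivAt
    have e := P.dX d (hasDerivAt_const x t)
    simp only [h1] at e
    have := e.unique (hasDerivAt_id x)
    exact d.congr_deriv (eq_inv_of_mul_eq_one_right (by simpa using this))
  have mt : ∀ x t, HasDerivAt (fun s => μ (x, s)) (-P.Xt (μ (x, t), t) * (P.J (μ (x, t), t))⁻¹) t := fun x t => by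
    have d := (show DifferentiableAt ℝ (fun s => μ (x, s)) t by fun_prop).hasDerivAt
    have e := P.dX d (hasDerivAt_id t)
    simp only [id, h1] at e
    have := e.unique (hasDerivAt_const t x)
    refine d.congr_deriv ?_
    rw [eq_mul_inv_iff_mul_eq₀ (P.J0 _).ne']; linarith
  obtain ⟨α, β, ro⟩ := P.ro
  let ψ : ℝ × ℝ → ℂ := fun z => Complex.exp (P.a (μ z, z.2) + P.θ (μ z, z.2) * Complex.I)
  have o : ContDiff ℝ ∞ (Complex.ofRealCLM : ℝ → ℂ) := Complex.ofRealCLM.contDiff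
  refine ⟨fun z => P.U (μ z, z.2), ψ, 5 * P.l + 2, -α, -β, fun z => P.U0 _ _, fun e => ?_, by fun_prop, fun ⟨x, t⟩ => ?_, fun x t h => ?_,
    Complex.contDiff_exp.comp ((o.comp (sa.comp (by fun_prop))).add ((o.comp (sθ.comp (by fun_prop))).mul contDiff_const)),
    fun z => Complex.exp_ne_zero _, fun ⟨x, t⟩ => ?_, fun x t => ?_, fun x t => ⟨fun h => ?_, fun h => ?_⟩⟩
  · have := congrFun e (P.X (0, 0), 0)
    simp only [h2, Pi.zero_apply] at this
    linarith [P.core (m := 0) 0 (by simp; linarith)]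
  · simp [mp, Prof.U, Prof.q, Prof.qm, Prof.θt, Prof.Xt, Prof.J, Prof.Jm, Prof.Jmm]
  · have h4 : 4 * P.l < |x| := by linarith
    simp only [mo x t h4, (P.outer t h4).2.2.2]
    rcases le_abs.1 h with g | g
    · have := P.fr.loc (isOpen_Ioi (a := 5 * P.l + 1)) (j := 0) (b := 1) (c := α) fun m hm => by simpa using (ro m).1 hm.le
      have hx : x ∈ Ioi (5 * P.l + 1) := by simp; linarith
      rw [this.1 x hx, this.2 0 x hx]; ring
    · have := P.fr.loc (isOpen_Iio (a := -(5 * P.l + 1))) (j := 0) (b := -1) (c := β) fun m hm => by simpa using (ro m).2 hm.le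
      have hx : x ∈ Iio (-(5 * P.l + 1)) := by simp; linarith
      rw [this.1 x hx, this.2 0 x hx]; ring
  · have a1 : P.a (μ (x, t), t + 2 * π) = P.a (μ (x, t), t) := by simp [Prof.a, Prof.J]
    have a2 : P.θ (μ (x, t), t + 2 * π) = P.θ (μ (x, t), t) + 2 * π := by simp [Prof.θ]; ring
    simp only [ψ, Prod.mk_add_mk, add_zero, mp, a1, a2]
    rw [← Complex.exp_periodic (P.a (μ (x, t), t) + P.θ (μ (x, t), t) * Complex.I)]; congr 1; push_cast; ring
  · have dx : ∀ y, HasDerivAt (fun y => ψ (y, t)) (ψ (y, t) * (P.q (μ (y, t), t) + (P.Xt (μ (y, t), t) / 2 : ℝ) * Complex.I)) y := fun y =>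
      ((P.da (mx y t) (hasDerivAt_const y t)).ofReal_comp.add
        ((P.dθ (mx y t) (hasDerivAt_const y t)).ofReal_comp.mul_const Complex.I)).cexp.congr_deriv (by
          have : (P.J (μ (y, t), t) : ℂ) ≠ 0 := by exact_mod_cast (P.J0 _).ne'
          simp only [ψ, Pi.add_apply]; push_cast; field_simp; ring)
    have dt := ((P.da (mt x t) (hasDerivAt_id t)).ofReal_comp.add ((P.dθ (mt x t) (hasDerivAt_id t)).ofReal_comp.mul_const Complex.I)).cexp
    have dxx := (dx x).mul ((P.dq (mx x t) t).ofReal_comp.add (((P.dXt (mx x t) t).div_const 2).ofReal_comp.mul_const Complex.I))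
    rw [funext fun y => (dx y).deriv]
    erw [dt.deriv, dxx.deriv]
    have : (P.J (μ (x, t), t) : ℂ) ≠ 0 := by exact_mod_cast (P.J0 _).ne'
    simp only [ψ, Prof.U, id, Pi.add_apply]
    push_cast
    field_simp
    linear_combination (16 * P.J (μ (x, t), t) * P.θt (μ (x, t), t) - 4 * P.J (μ (x, t), t) * P.Xt (μ (x, t), t) ^ 2 : ℂ) * Complex.I_sq
  · have h4 : 4 * P.l < |x| := by rw [abs_of_pos (by linarith)]; linarith
    simp only [ψ, mo x t h4, (P.outer t h4).2.1, (P.outer t h4).2.2.1, (ro x).1 (by linarith)]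
    congr 1; push_cast; ring
  · have h4 : 4 * P.l < |x| := by rw [abs_of_neg (by linarith)]; linarith
    simp only [ψ, mo x t h4, (P.outer t h4).2.1, (P.outer t h4).2.2.1, (ro x).2 (by linarith)]
    congr 1; push_cast; ring

end Pool.Agent.H.MP_4efd05_mp
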